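import Pool.Agent.helper53.ORT.Spec

/-!
# Project ort (MP_561ff4_al): KJ (changing `β`)
-/

set_option autoImplicit false

namespace Pool.Agent.ORT

open Module Pool.Agent.GS

theorem KJ_quad {K : Type} [Field K] [Finite K] (h2 : (2 : K) ≠ 0) (σ t : K) (h4 : σ ^ 2 ≠ 4) :
    ∃ x y : K, x ^ 2 + σ * x * y + y ^ 2 = t := by
  classical
  have := Fintype.ofFinite K
  have hodd : Fintype.card K % 2 = 1 := by
    rcases Nat.mod_two_eq_zero_or_one (Fintype.card K) with h | h
    · exfalso
      apply h2
      have h1 : ringChar K = 2 := FiniteField.even_card_iff_char_two.mpr h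
      have h3 : ((ringChar K : ℕ) : K) = 0 := ringChar.Nat.cast_ringChar
      rw [h1] at h3
      exact_mod_cast h3
    · exact h
  obtain ⟨e, he⟩ : ∃ e : K, e = (4 - σ ^ 2) / 4 := ⟨_, rfl⟩
  have h4' : (4 : K) ≠ 0 := by
    have : (4 : K) = 2 * 2 := by norm_num
    rw [this]
    exact mul_ne_zero h2 h2
  have he0 : e ≠ 0 := by
    rw [he]
    apply div_ne_zero _ h4'
    intro h
    apply h4
    rw [sub_eq_zero] at h
    exact h.symm
  have hf : (Polynomial.X ^ 2 - Polynomial.C t : Polynomial K).degree = 2 := by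
    have := Polynomial.degree_X_pow_sub_C (n := 2) (by norm_num) t
    exact_mod_cast this
  have hg : (Polynomial.C e * Polynomial.X ^ 2 : Polynomial K).degree = 2 := by
    have := Polynomial.degree_C_mul_X_pow 2 he0
    exact_mod_cast this
  obtain ⟨a, b, hab⟩ := FiniteField.exists_root_sum_quadratic hf hg hodd
  simp only [Polynomial.eval_sub, Polynomial.eval_pow, Polynomial.eval_X, Polynomial.eval_C,
    Polynomial.eval_mul] at hab
  refine ⟨a - σ * b / 2, b, ?_⟩
  have h5 : a ^ 2 + e * b ^ 2 = t := by linear_combination hab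
  rw [← h5, he]
  field_simp
  ring

theorem KJ (bf : GS.BF_stmt) : KJ_stmt := by
  intro F V K _ _ _ _ _ _ _ _ B hF hB k hk β σ j hD β' hβ'
  have h2 : (2 : F) ≠ 0 := Ring.two_ne_zero hF
  have h2K : (2 : K) ≠ 0 := by
    have h := (map_ne_zero (algebraMap F K)).mpr h2
    rwa [map_ofNat] at h
  obtain ⟨x, y, hxy⟩ := KJ_quad h2K σ (β' / β) hD.s4
  have hβ := hD.b0
  have hxy' : β * (x ^ 2 + σ * x * y + y ^ 2) = β' := by
    rw [hxy]
    field_simp
  have kadd : ∀ u v, k (u + v) = k u + k v := hk.1.1
  have ksmul : ∀ (c : F) (v : V), k (c • v) = c • k v := hk.1.2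
  have kform : ∀ u v, B (k u) (k v) = B u v := hk.2
  have ksub : ∀ u v, k (u - v) = k u - k v := by
    intro u v
    rw [eq_sub_iff_add_eq, ← kadd, sub_add_cancel]
  have kinv_add : ∀ u v, k⁻¹ (u + v) = k⁻¹ u + k⁻¹ v := by
    intro u v
    apply k.injective
    rw [kadd, pinv, pinv, pinv]
  -- `k k (j c) = k (j (σ c)) - j c`
  have kk : ∀ c, k (k (j c)) = k (j (σ * c)) - j c := by
    intro c
    rw [← hD.s c, kadd, pinv, add_sub_cancel_right]
  let kl : V →ₗ[F] V := { toFun := k, map_add' := kadd, map_smul' := ksmul }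
  let j' : K →ₗ[F] V := j ∘ₗ LinearMap.mulLeft F x + kl ∘ₗ (j ∘ₗ LinearMap.mulLeft F y)
  have hj' : ∀ c, j' c = j (x * c) + k (j (y * c)) := fun c => rfl
  have nd : ∀ P Q : K, (∀ c, Algebra.trace F K (β * P * c) = Algebra.trace F K (β * Q * c)) →
      P = Q := by
    intro P Q h
    have hs := (@bf F K _ _ _ _ _).1 β⁻¹ (inv_ne_zero hβ)
    have h0 := hs.nd (P - Q) (by
      intro c
      show Algebra.trace F K (β⁻¹⁻¹ * (P - Q) * c) = 0
      rw [inv_inv, mul_sub, sub_mul, map_sub, h c, sub_self])
    exact sub_eq_zero.mp h0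
  have hexp : ∀ a b c d : V, B (a + b) (c + d) = B a c + B a d + (B b c + B b d) := by
    intro a b c d
    simp only [map_add, LinearMap.add_apply]
    ring
  have half : ∀ u v : F, 2 * u = 2 * v → u = v := fun u v h => mul_left_cancel₀ h2 h
  refine ⟨j', ?_, fun c => ⟨x * c, y * c, hj' c⟩⟩
  refine ⟨hβ', hD.s0, hD.s4, ?_, ?_, ?_, ?_⟩
  · intro c
    rw [hj', hj', kadd, kinv_add, invp, kk]
    have e1 := hD.s (x * c)
    have e2 : x * (σ * c) = σ * (x * c) := by ring
    have e3 : y * (σ * c) = σ * (y * c) := by ring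
    rw [e2, e3, ← e1]
    abel
  · intro c c'
    apply half
    have a1 := hD.f1 (x * c) (x * c')
    have a2 := hD.f1 (y * c) (y * c')
    have a3 := hD.f2 (y * c) (x * c')
    have a4 := hD.f2 (y * c') (x * c)
    rw [hj', hj', hexp, kform, a1, a2, hB.symm (j (x * c)) (k (j (y * c')))]
    have e1 : 2 * (Algebra.trace F K (β * (x * c) * (x * c')) + B (k (j (y * c'))) (j (x * c)) +
        (B (k (j (y * c))) (j (x * c')) + Algebra.trace F K (β * (y * c) * (y * c')))) =
        2 * Algebra.trace F K (β * (x * c) * (x * c')) +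
          2 * Algebra.trace F K (β * (y * c) * (y * c')) +
          (2 * B (k (j (y * c))) (j (x * c')) + 2 * B (k (j (y * c'))) (j (x * c))) := by ring
    rw [e1, a3, a4]
    have e2 : β' * c * c' = β * (x * c) * (x * c') + β * (y * c) * (y * c') +
        β * σ * (y * c) * (x * c') := by
      rw [← hxy']
      ring
    have e3 : β * σ * (y * c') * (x * c) = β * σ * (y * c) * (x * c') := by ring
    rw [e2, e3, map_add, map_add]
    ring
  · intro c c'
    have a1 := hD.f2 (x * c) (x * c')
    have a2 := hD.f1 (x * c) (y * c')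
    have a3 := hD.f2 (σ * (y * c)) (x * c')
    have a4 := hD.f1 (y * c) (x * c')
    have a5 := hD.f2 (y * c) (y * c')
    rw [hj', hj', kadd, hexp, kform, kform, kk, map_sub, LinearMap.sub_apply, a2, a4]
    have e1 : 2 * (B (k (j (x * c))) (j (x * c')) + Algebra.trace F K (β * (x * c) * (y * c')) +
        (B (k (j (σ * (y * c)))) (j (x * c')) - Algebra.trace F K (β * (y * c) * (x * c')) +
          B (k (j (y * c))) (j (y * c')))) =
        2 * B (k (j (x * c))) (j (x * c')) + 2 * B (k (j (σ * (y * c)))) (j (x * c')) +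
          2 * B (k (j (y * c))) (j (y * c')) +
          2 * (Algebra.trace F K (β * (x * c) * (y * c')) -
            Algebra.trace F K (β * (y * c) * (x * c'))) := by ring
    have e2 : β * (x * c) * (y * c') = β * (y * c) * (x * c') := by ring
    rw [e1, a1, a3, a5, e2, sub_self, mul_zero, add_zero, ← map_add, ← map_add]
    congr 1
    rw [← hxy']
    ring
  · intro c hc
    obtain ⟨P, hP⟩ : ∃ P, P = x * c + σ * (y * c) - y * c := ⟨_, rfl⟩
    obtain ⟨Q, hQ⟩ : ∃ Q, Q = x * c + y * c := ⟨_, rfl⟩
    have hPQ : k (j P) = j Q := by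
      rw [hj', kadd, kk] at hc
      rw [hP, hQ, map_sub, map_add, map_add, ksub, kadd]
      have e : k (j (x * c)) + k (j (σ * (y * c))) - k (j (y * c)) =
          (k (j (x * c)) + (k (j (σ * (y * c))) - j (y * c))) - k (j (y * c)) + j (y * c) := by
        abel
      rw [e, hc]
      abel
    have r1 : σ * P = 2 * Q := by
      apply nd
      intro c'
      have a1 := hD.f2 P c'
      rw [hPQ, hD.f1 Q c'] at a1
      have e1 : β * (σ * P) * c' = β * σ * P * c' := by ring
      have e2 : β * (2 * Q) * c' = β * Q * c' + β * Q * c' := by ring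
      rw [e1, e2, ← a1, map_add]
      ring
    have r2 : 2 * P = σ * Q := by
      apply nd
      intro c'
      have a1 := hD.f1 P c'
      have a2 := hD.f2 c' Q
      rw [← kform, hPQ, hB.symm] at a1
      rw [a1] at a2
      have e1 : β * (2 * P) * c' = β * P * c' + β * P * c' := by ring
      have e2 : β * (σ * Q) * c' = β * σ * c' * Q := by ring
      rw [e1, e2, ← a2, map_add]
      ring
    have hP0 : P = 0 := by
      have h : (σ ^ 2 - 4) * P = 0 := by linear_combination σ * r1 - 2 * r2
      rcases mul_eq_zero.mp h with h | h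
      · exact absurd (sub_eq_zero.mp h) hD.s4
      · exact h
    have hQ0 : Q = 0 := by
      have h : 2 * Q = 0 := by rw [← r1, hP0, mul_zero]
      rcases mul_eq_zero.mp h with h | h
      · exact absurd h h2K
      · exact h
    rw [hP0] at hP
    rw [hQ0] at hQ
    have hσ2 : σ - 2 ≠ 0 := by
      intro h
      apply hD.s4
      rw [sub_eq_zero.mp h]
      norm_num
    have hyc : y * c = 0 := by
      have h : (σ - 2) * (y * c) = 0 := by linear_combination hQ - hP
      rcases mul_eq_zero.mp h with h | h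
      · exact absurd h hσ2
      · exact h
    have hxc : x * c = 0 := by linear_combination -hQ - hyc
    by_contra hc0
    have hx0 : x = 0 := by
      rcases mul_eq_zero.mp hxc with h | h
      · exact h
      · exact absurd h hc0
    have hy0 : y = 0 := by
      rcases mul_eq_zero.mp hyc with h | h
      · exact h
      · exact absurd h hc0
    apply hβ'
    rw [← hxy', hx0, hy0]
    ring

end Pool.Agent.ORT
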